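import Pool.Agent.X72.EIP.EMethod

set_option autoImplicit false

/-!
# Uniqueness of the earliest-ideal-position sequencing method
-/

namespace Pool.Agent.Results.MP_d7fca3_co.EIPUnique

open Pool.Agent.X72.EIP

theorem reflective_weakly {ι : Type*} [DecidableEq ι] {F : (ι →₀ ℕ) → Set (List ι)}
    (h : Reflective F) : WeaklyReflective F := by
  intro i k hik a b ha hb _ hodd S hS
  obtain ⟨U, W, h1, h2⟩ := h _ (two_ne hik ha) S hS
  have hW : ∃ x, W = [x] := by
    obtain ⟨e1, e2⟩ := two_apply hik a b
    have hz : ∀ x, x ≠ i → x ≠ k → (Finsupp.single i a + Finsupp.single k b : ι →₀ ℕ) x = 0 := by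
      intro x h1 h2
      simp [h1, h2]
    rcases Nat.even_or_odd a with hae | hao
    · have hbo : Odd b := by
        rw [Nat.odd_add'] at hodd
        exact hodd.2 hae
      refine ⟨k, ?_⟩
      have hp : W.Perm [k] := by
        rw [List.perm_iff_count]
        intro x
        rw [h2 x]
        by_cases hxk : x = k
        · subst hxk; rw [e2, if_pos hbo]; simp
        · have : List.count x [k] = 0 := by rw [List.count_singleton]; simp [Ne.symm hxk]
          rw [this]
          by_cases hxi : x = i
          · subst hxi; rw [e1, if_neg (by rwa [Nat.not_odd_iff_even])]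
          · rw [hz x hxi hxk]; simp
      exact List.perm_singleton.1 hp
    · have hbe : Even b := by
        rw [Nat.odd_add] at hodd
        exact hodd.1 hao
      refine ⟨i, ?_⟩
      have hp : W.Perm [i] := by
        rw [List.perm_iff_count]
        intro x
        rw [h2 x]
        by_cases hxi : x = i
        · subst hxi; rw [e1, if_pos hao]; simp
        · have : List.count x [i] = 0 := by rw [List.count_singleton]; simp [Ne.symm hxi]
          rw [this]
          by_cases hxk : x = k
          · subst hxk; rw [e2, if_neg (by rwa [Nat.not_odd_iff_even])]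
          · rw [hz x hxi hxk]; simp
      exact List.perm_singleton.1 hp
  obtain ⟨x, rfl⟩ := hW
  rw [h1]; simp

/-- No method is both periodic and reflective in the literal sense (ties!). -/
theorem not_reflective {ι : Type*} [DecidableEq ι] {i k : ι} (hik : i ≠ k)
    {F : (ι →₀ ℕ) → Set (List ι)} (hM : IsMethod F) (hP : Periodic F) : ¬ Reflective F := by
  intro hR
  have hne : two i 1 k 1 ≠ 0 := two_ne hik (by omega)
  obtain ⟨S, hS⟩ := hM.nonempty _ hne
  have h2 := hP _ hne 2 (by norm_num) S hS
  have hne2 : 2 • two i 1 k 1 ≠ 0 := by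
    rw [smul_ne_zero_iff]; exact ⟨by omega, hne⟩
  obtain ⟨U, W, h3, h4⟩ := hR _ hne2 _ h2
  have hW : W = [] := by
    rw [List.eq_nil_iff_forall_not_mem]
    intro x hx
    have h5 := h4 x
    have h6 := List.count_pos_iff.2 hx
    have h7 : ¬ Odd ((2 • two i 1 k 1) x) := by
      rw [Nat.not_odd_iff_even]
      simp only [Finsupp.smul_apply, smul_eq_mul]
      exact even_two_mul _
    rw [if_neg h7] at h5
    omega
  have h8 : ((List.replicate 2 S).flatten).reverse = (List.replicate 2 S).flatten := by
    rw [h3, hW]; simp
  rcases pair_word hM hik hS with h | h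
  · subst h
    simp [List.replicate_succ] at h8
    exact hik h8.1.symm
  · subst h
    simp [List.replicate_succ] at h8
    exact hik h8.1

/-- The earliest-ideal-position method `E` is periodic, uniform and (weakly) reflective, and every
periodic, uniform and weakly reflective method `F` satisfies `F q ⊆ E q` for every instance `q`;
in particular so does every periodic, uniform and reflective method. The last part records that
the literal reflection property is incompatible with periodicity. -/
theorem result {ι : Type*} [DecidableEq ι] (h3 : ∀ a b : ι, ∃ c, c ≠ a ∧ c ≠ b) :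
    (IsMethod (E (ι := ι)) ∧ Periodic (E (ι := ι)) ∧ Uniform (E (ι := ι)) ∧
      WeaklyReflective (E (ι := ι))) ∧
    (∀ F : (ι →₀ ℕ) → Set (List ι), IsMethod F → Periodic F → Uniform F → WeaklyReflective F →
      ∀ q, q ≠ 0 → F q ⊆ E q) ∧
    (∀ F : (ι →₀ ℕ) → Set (List ι), IsMethod F → Periodic F → Uniform F → Reflective F →
      ∀ q, q ≠ 0 → F q ⊆ E q) ∧
    (∀ i k : ι, i ≠ k → ∀ F : (ι →₀ ℕ) → Set (List ι), IsMethod F → Periodic F →
      ¬ Reflective F) := by
  have main : ∀ F : (ι →₀ ℕ) → Set (List ι), IsMethod F → Periodic F → Uniform F →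
      WeaklyReflective F → ∀ q, q ≠ 0 → F q ⊆ E q := by
    intro F hM hP hU hR q hq S hS
    exact mem_E_of_prefixEIP (prefixEIP_of h3 hM hP hU hR hq hS)
  exact ⟨⟨E_isMethod, E_periodic, E_uniform, E_weaklyReflective⟩, main,
    fun F hM hP hU hR => main F hM hP hU (reflective_weakly hR),
    fun i k hik F hM hP => not_reflective hik hM hP⟩

end Pool.Agent.Results.MP_d7fca3_co.EIPUnique
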